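import Pool.Agent.X123.Salem

/-!
# The geometric-progression Lagrange spectrum of a Salem number is never closed

Let `α` be a Salem number and `ℓ` the sum of the absolute values of the coefficients of its minimal
polynomial. If `limsup ‖ξ α^n‖ < 1/ℓ` then the integers nearest to `ξ α^n` eventually satisfy the
linear recurrence of `α`, which leaves only countably many `ξ`; so the spectrum meets `[0, 1/ℓ)` in
a countable set. On the other hand the spectrum is dense in `[0, 1/2]`: it has arbitrarily small
positive elements `v`, and contains all multiples `m v < 1/2`.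
-/

set_option autoImplicit false

namespace Pool.Agent.Results.MP_8d213d_nt.SalemNotClosed

open Polynomial Filter Topology

/-- The distance from `x` to the nearest integer. -/
noncomputable def distInt (x : ℝ) : ℝ := |x - round x|

/-- `L(α)`: the set of the upper limits of `‖ξ α^n‖` as `n` tends to infinity, `ξ` real. -/
noncomputable def lagrange (α : ℝ) : Set ℝ :=
  {t | ∃ ξ : ℝ, t = limsup (fun n : ℕ => distInt (ξ * α ^ n)) atTop}

/-- Salem numbers: real algebraic integers `α > 1` all of whose other conjugates have modulus at
most `1`, at least one of them having modulus exactly `1`. -/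
def IsSalem (α : ℝ) : Prop :=
  1 < α ∧ IsIntegral ℤ α ∧
    (∀ z : ℂ, aeval z (minpoly ℤ α) = 0 → z ≠ (α : ℂ) → ‖z‖ ≤ 1) ∧
    ∃ z : ℂ, aeval z (minpoly ℤ α) = 0 ∧ ‖z‖ = 1

/-- Salem numbers exist, and for every Salem number `α` the set `L(α)` is not closed. -/
theorem result : (∃ α : ℝ, IsSalem α) ∧ ∀ α : ℝ, IsSalem α → ¬ IsClosed (lagrange α) :=
  ⟨⟨X123.Salem.α₀, X123.Salem.salem_α₀⟩, fun _ h => X123.Salem.geo_not_closed h⟩

end Pool.Agent.Results.MP_8d213d_nt.SalemNotClosed
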